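import Pool.Agent.H18.Tl.CntP

/-!
# The virtual dimension does not depend on the choice of `J`, pair sums at most `d' + 1`

A copy of `Pool.Agent.H18.Tl.CntJ` with the hypothesis `m' i + m' j ≤ d' + 1` instead of `m' i + m' j ≤ d'`.
-/

namespace Pool.Agent.H18.Iso

open Finset Function Pool.Agent.H18.Tj Pool.Agent.H18.Tl

/-- the position of a coordinate -/
private def CntQ_pos {r s : ℕ} (hs : s ≤ r + 1) (l : Fin s) : Fin (r + 1) :=
  ⟨l.val, lt_of_lt_of_le l.2 hs⟩

private theorem CntQ_pos_inj {r s : ℕ} (hs : s ≤ r + 1) {l l' : Fin s}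
    (h : CntQ_pos hs l = CntQ_pos hs l') : l = l' := by
  have h1 := congrArg Fin.val h
  exact Fin.ext h1

private theorem CntQ_w {r s d : ℕ} (hs : s ≤ r + 1) (c : Fin s → ℕ) (l : Fin s) :
    bw r d s c (CntQ_pos hs l) = c l := by
  unfold bw CntQ_pos
  rw [dif_pos l.2]

private theorem CntQ_wO {r s d q : ℕ} (hs : s ≤ r + 1) (c : Fin s → ℕ) (e : Fin q ↪ Fin s)
    (l : Fin s) (hl : ∀ l', e l' ≠ l) : bwe r d s q c e (CntQ_pos hs l) = d :=
  bwe_of_ne c e _ fun l' h => hl l' (Fin.ext h)

private theorem CntQ_w_eq {r s d q : ℕ} (hs : s ≤ r + 1) (c : Fin s → ℕ) (e : Fin q ↪ Fin s)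
    (i : Fin (r + 1)) (hi : ∀ l, (∀ l', e l' ≠ l) → CntQ_pos hs l ≠ i) :
    bw r d s c i = bwe r d s q c e i := by
  by_cases h : i.val < s
  · have h1 : CntQ_pos hs ⟨i.val, h⟩ = i := Fin.ext rfl
    have h2 : ∃ l', e l' = ⟨i.val, h⟩ := by
      by_contra hcon
      push Not at hcon
      exact hi _ hcon h1
    obtain ⟨l', hl'⟩ := h2
    rw [bwe_val c e l' i (by rw [hl']), hl']
    unfold bw
    rw [dif_pos h]
  · rw [bwe_of_ne c e i fun l hl => h (hl ▸ (e l).2)]
    unfold bw
    rw [dif_neg h]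

private theorem CntQ_le {r s d q : ℕ} (hs : s ≤ r + 1) (c : Fin s → ℕ) (hc : ∀ l, c l ≤ d)
    (e : Fin q ↪ Fin s) (i : Fin (r + 1)) : bw r d s c i ≤ bwe r d s q c e i := by
  by_cases h : ∀ l, (∀ l', e l' ≠ l) → CntQ_pos hs l ≠ i
  · exact (CntQ_w_eq hs c e i h).le
  · push Not at h
    obtain ⟨l, hl, rfl⟩ := h
    rw [CntQ_w, CntQ_wO hs c e l hl]
    exact hc l

/-- one overflowing coordinate -/
private theorem CntQ_slice {r : ℕ} {d m : ℕ} (w : Fin (r + 1) → ℕ) (i : Fin (r + 1))
    (hw : w i = d) (hm : m ≤ d) :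
    ((Ex.Rg d w).filter fun α => d - m < α i).card =
      if 1 ≤ m then (Ex.Rg (m - 1) w).card else 0 := by
  split_ifs with h1
  · symm
    refine Finset.card_bij (fun α _ => Function.update α i (α i + (d - m + 1))) ?_ ?_ ?_
    · intro α hα
      rw [Ex.mem_Rg] at hα
      rw [mem_filter, Ex.mem_Rg]
      have hsum : ∑ j, Function.update α i (α i + (d - m + 1)) j = d := by
        rw [Finset.sum_update_of_mem (mem_univ i)]
        have h2 := Finset.add_sum_erase univ α (mem_univ i)
        rw [← Finset.sdiff_singleton_eq_erase] at h2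
        rw [hα.2] at h2
        omega
      refine ⟨⟨fun j => ?_, hsum⟩, ?_⟩
      · by_cases hj : j = i
        · subst hj
          rw [hw]
          have h3 : Function.update α j (α j + (d - m + 1)) j ≤
              ∑ l, Function.update α j (α j + (d - m + 1)) l :=
            single_le_sum (fun _ _ => Nat.zero_le _) (mem_univ j)
          omega
        · rw [Function.update_of_ne hj]
          exact hα.1 j
      · rw [Function.update_self]
        omega
    · intro α _ β _ h
      funext j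
      have hj := congrFun h j
      by_cases hji : j = i
      · subst hji
        rw [Function.update_self, Function.update_self] at hj
        omega
      · rwa [Function.update_of_ne hji, Function.update_of_ne hji] at hj
    · intro β hβ
      rw [mem_filter, Ex.mem_Rg] at hβ
      refine ⟨Function.update β i (β i - (d - m + 1)), ?_, ?_⟩
      · rw [Ex.mem_Rg]
        refine ⟨fun j => ?_, ?_⟩
        · by_cases hj : j = i
          · subst hj
            rw [Function.update_self]
            have := hβ.1.1 j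
            omega
          · rw [Function.update_of_ne hj]
            exact hβ.1.1 j
        · rw [Finset.sum_update_of_mem (mem_univ i)]
          have h2 := Finset.add_sum_erase univ β (mem_univ i)
          rw [← Finset.sdiff_singleton_eq_erase] at h2
          rw [hβ.1.2] at h2
          have h3 := hβ.2
          omega
      · funext j
        by_cases hj : j = i
        · subst hj
          rw [Function.update_self, Function.update_self]
          have h3 := hβ.2
          omega
        · rw [Function.update_of_ne hj, Function.update_of_ne hj]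
  · rw [Finset.card_eq_zero, Finset.filter_eq_empty_iff]
    intro α hα
    rw [Ex.mem_Rg] at hα
    have := hα.1 i
    omega

theorem cntQ {r k d' s q : ℕ} (hs : s ≤ r + 1) (m' : Fin k → ℕ) (J : Fin s ↪ Fin k)
    (e : Fin q ↪ Fin s) (hm : ∀ i, m' i ≤ d')
    (h2 : ∀ i j, i ≠ j → (∀ l, J (e l) ≠ i) → (∀ l, J (e l) ≠ j) → m' i + m' j ≤ d' + 1) :
    (cnt r s (fun l => d' - m' (J l)) d' : ℤ) -
        ∑ i ∈ univ.filter (fun i => (∀ l, J l ≠ i) ∧ 1 ≤ m' i),
          (cnt r s (fun l => d' - m' (J l)) (m' i - 1) : ℤ) =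
      (cnt r q (fun l => d' - m' (J (e l))) d' : ℤ) -
        ∑ i ∈ univ.filter (fun i => (∀ l, J (e l) ≠ i) ∧ 1 ≤ m' i),
          (cnt r q (fun l => d' - m' (J (e l))) (m' i - 1) : ℤ) := by
  classical
  set c : Fin s → ℕ := fun l => d' - m' (J l) with hc
  have hcd : ∀ l, c l ≤ d' := fun l => Nat.sub_le _ _
  set w : Fin (r + 1) → ℕ := bw r d' s c with hw
  set w' : Fin (r + 1) → ℕ := bwe r d' s q c e with hw'
  have hA : ∀ n, n ≤ d' → cnt r s c n = (Ex.Rg n w).card := fun n hn =>
    count_eq r s d' n hs hn c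
  have hB : ∀ n, n ≤ d' → cnt r q (fun l => d' - m' (J (e l))) n = (Ex.Rg n w').card :=
    fun n hn => cnt_bwe hs hn c e
  -- the coordinates which are left out
  set O : Finset (Fin s) := univ.filter fun l => ∀ l', e l' ≠ l with hO
  have hOm : ∀ l ∈ O, ∀ l', J (e l') ≠ J l := fun l hl l' h =>
    (mem_filter.1 hl).2 l' (J.injective h)
  -- sums
  have hsum : ∀ F : Fin k → ℤ,
      ∑ i ∈ univ.filter (fun i => (∀ l, J (e l) ≠ i) ∧ 1 ≤ m' i), F i =
        ∑ i ∈ univ.filter (fun i => (∀ l, J l ≠ i) ∧ 1 ≤ m' i), F i +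
          ∑ l ∈ O, if 1 ≤ m' (J l) then F (J l) else 0 := by
    intro F
    rw [← Finset.sum_filter, ← Finset.sum_map (O.filter fun l => 1 ≤ m' (J l)) J F,
      ← Finset.sum_union]
    · refine Finset.sum_congr ?_ fun _ _ => rfl
      ext i
      simp only [mem_filter, mem_univ, true_and, mem_union, mem_map, hO]
      constructor
      · rintro ⟨h3, h4⟩
        by_cases h5 : ∀ l, J l ≠ i
        · exact Or.inl ⟨h5, h4⟩
        · push Not at h5
          obtain ⟨l, rfl⟩ := h5
          exact Or.inr ⟨l, ⟨fun l' h6 => h3 l' (by rw [h6]), h4⟩, rfl⟩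
      · rintro (⟨h3, h4⟩ | ⟨l, ⟨h3, h4⟩, rfl⟩)
        · exact ⟨fun l => h3 (e l), h4⟩
        · exact ⟨fun l' h => h3 l' (J.injective h), h4⟩
    · rw [Finset.disjoint_left]
      intro i hi hi'
      rw [mem_filter] at hi
      rw [mem_map] at hi'
      obtain ⟨l, -, rfl⟩ := hi'
      exact hi.2.1 l rfl
  -- the points outside `J`
  have hout : ∀ i ∈ univ.filter (fun i => (∀ l, J l ≠ i) ∧ 1 ≤ m' i),
      Ex.Rg (m' i - 1) w = Ex.Rg (m' i - 1) w' := by
    intro i hi
    rw [mem_filter] at hi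
    ext α
    rw [Ex.mem_Rg, Ex.mem_Rg]
    refine and_congr_left fun hα => ⟨fun h j => (h j).trans (CntQ_le hs c hcd e j),
      fun h j => ?_⟩
    by_cases hj : ∀ l, (∀ l', e l' ≠ l) → CntQ_pos hs l ≠ j
    · rw [hw, CntQ_w_eq hs c e j hj]
      exact h j
    · push Not at hj
      obtain ⟨l, hl, rfl⟩ := hj
      rw [hw, CntQ_w]
      have h3 : α (CntQ_pos hs l) ≤ ∑ l, α l :=
        single_le_sum (fun _ _ => Nat.zero_le _) (mem_univ _)
      have h4 := h2 i (J l) (fun h => hi.2.1 l h.symm) (fun l' => hi.2.1 (e l'))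
        (fun l' h => hl l' (J.injective h))
      have h5 : c l = d' - m' (J l) := rfl
      have h6 := hi.2.2
      omega
  -- the region of degree `d'`
  have htop : (Ex.Rg d' w').card = (Ex.Rg d' w).card +
      ∑ l ∈ O, if 1 ≤ m' (J l) then (Ex.Rg (m' (J l) - 1) w').card else 0 := by
    have h3 : Ex.Rg d' w' = Ex.Rg d' w ∪ O.biUnion fun l =>
        (Ex.Rg d' w').filter fun α => d' - m' (J l) < α (CntQ_pos hs l) := by
      ext α
      rw [mem_union, mem_biUnion]
      constructor
      · intro hα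
        by_cases h4 : ∃ l ∈ O, d' - m' (J l) < α (CntQ_pos hs l)
        · obtain ⟨l, hl, h5⟩ := h4
          exact Or.inr ⟨l, hl, mem_filter.2 ⟨hα, h5⟩⟩
        · push Not at h4
          left
          rw [Ex.mem_Rg] at hα ⊢
          refine ⟨fun j => ?_, hα.2⟩
          by_cases hj : ∀ l, (∀ l', e l' ≠ l) → CntQ_pos hs l ≠ j
          · rw [hw, CntQ_w_eq hs c e j hj]
            exact hα.1 j
          · push Not at hj
            obtain ⟨l, hl, rfl⟩ := hj
            rw [hw, CntQ_w]
            exact h4 l (mem_filter.2 ⟨mem_univ _, hl⟩)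
      · rintro (hα | ⟨l, -, hα⟩)
        · rw [Ex.mem_Rg] at hα ⊢
          exact ⟨fun j => (hα.1 j).trans (CntQ_le hs c hcd e j), hα.2⟩
        · exact (mem_filter.1 hα).1
    have h4 : Disjoint (Ex.Rg d' w) (O.biUnion fun l =>
        (Ex.Rg d' w').filter fun α => d' - m' (J l) < α (CntQ_pos hs l)) := by
      rw [Finset.disjoint_left]
      intro α hα hα'
      rw [mem_biUnion] at hα'
      obtain ⟨l, -, hl⟩ := hα'
      have h5 := (mem_filter.1 hl).2
      have h6 := (Ex.mem_Rg.1 hα).1 (CntQ_pos hs l)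
      rw [hw, CntQ_w] at h6
      have h7 : c l = d' - m' (J l) := rfl
      omega
    have h5 : ∀ l ∈ O, ∀ l' ∈ O, l ≠ l' →
        Disjoint ((Ex.Rg d' w').filter fun α => d' - m' (J l) < α (CntQ_pos hs l))
          ((Ex.Rg d' w').filter fun α => d' - m' (J l') < α (CntQ_pos hs l')) := by
      intro l hl l' hl' hne
      rw [Finset.disjoint_left]
      intro α hα hα'
      rw [mem_filter] at hα hα'
      have h6 := h2 (J l) (J l') (fun h => hne (J.injective h)) (hOm l hl) (hOm l' hl')
      have h7 : CntQ_pos hs l ≠ CntQ_pos hs l' := fun h => hne (CntQ_pos_inj hs h)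
      have h8 : α (CntQ_pos hs l) + α (CntQ_pos hs l') ≤ ∑ j, α j := by
        rw [← Finset.sum_pair h7]
        exact Finset.sum_le_sum_of_subset (subset_univ _)
      have h9 := (Ex.mem_Rg.1 hα.1).2
      have h10 := hα.2
      have h11 := hα'.2
      have h12 := hm (J l)
      have h13 := hm (J l')
      omega
    conv_lhs => rw [h3]
    rw [card_union_of_disjoint h4, card_biUnion h5]
    congr 1
    refine Finset.sum_congr rfl fun l hl => ?_
    exact CntQ_slice w' (CntQ_pos hs l) (CntQ_wO hs c e l (mem_filter.1 hl).2) (hm (J l))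
  rw [hA d' le_rfl, hB d' le_rfl, hsum, htop]
  have h6 : ∑ i ∈ univ.filter (fun i => (∀ l, J l ≠ i) ∧ 1 ≤ m' i),
      (cnt r s c (m' i - 1) : ℤ) =
      ∑ i ∈ univ.filter (fun i => (∀ l, J l ≠ i) ∧ 1 ≤ m' i),
        (cnt r q (fun l => d' - m' (J (e l))) (m' i - 1) : ℤ) := by
    refine Finset.sum_congr rfl fun i hi => ?_
    have h7 : m' i - 1 ≤ d' := (Nat.sub_le _ _).trans (hm i)
    rw [hA _ h7, hB _ h7, hout i hi]
  have h7 : (∑ l ∈ O, if 1 ≤ m' (J l) then
      (cnt r q (fun l => d' - m' (J (e l))) (m' (J l) - 1) : ℤ) else 0) =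
      ((∑ l ∈ O, if 1 ≤ m' (J l) then (Ex.Rg (m' (J l) - 1) w').card else 0 : ℕ) : ℤ) := by
    rw [Nat.cast_sum]
    refine Finset.sum_congr rfl fun l _ => ?_
    split_ifs
    · rw [hB _ ((Nat.sub_le _ _).trans (hm _))]
    · rfl
  rw [h6, h7]
  push_cast
  ring

end Pool.Agent.H18.Iso
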