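import Pool.Agent.H18.Iso.Pair
import Pool.Agent.H18.Iso.CntQ
import Pool.Agent.H18.Tk.FinalK

/-!
# At most `n + 1` large multiplicities, pair sums at most `d + 1`
-/

namespace Pool.Agent.H18.Iso

open Finset Pool.Agent.H18.Fat Pool.Agent.H18.Pr Pool.Agent.H18.Tj

theorem cnt_free (r : ℕ) (b : Fin 0 → ℕ) (e : ℕ) : cnt r 0 b e = (e + r).choose r := by
  rw [← card_mons r e]
  unfold cnt
  have h1 : (mons (r + 1) e).card = Nat.card (mons (r + 1) e) := by
    rw [Nat.card_eq_fintype_card, Fintype.card_coe]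
  rw [h1]
  refine Nat.card_congr (Finsupp.equivFunOnFinite.symm.subtypeEquiv fun α => ?_)
  rw [mem_mons, Finsupp.degree_eq_sum]
  constructor
  · intro h
    simpa using h.1
  · intro h
    exact ⟨by simpa using h, fun l => l.elim0⟩

/-- The sum of at least two numbers with pair sums at most `c`. -/
theorem two_mul_sum_le {s c : ℕ} (a : Fin (s + 2) → ℕ) (h : ∀ i j, i ≠ j → a i + a j ≤ c) :
    2 * ∑ i, a i ≤ (s + 2) * c := by
  have h1 : ∑ i, a (i + 1) = ∑ i, a i := by
    have := Equiv.sum_comp (finRotate (s + 2)) a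
    simpa [finRotate_succ_apply] using this
  have h2 : ∑ i, (a i + a (i + 1)) ≤ ∑ _i : Fin (s + 2), c := by
    refine sum_le_sum fun i _ => h i (i + 1) ?_
    intro h3
    have h4 : (1 : Fin (s + 2)) = 0 := by
      have := congrArg (fun x => x - i) h3
      simpa using this.symm
    exact absurd h4 (by simp)
  rw [sum_add_distrib, h1, sum_const, card_univ, Fintype.card_fin, smul_eq_mul] at h2
  omega

theorem few_emb (n : ℕ) (hn : 2 ≤ n) : ∃ K E : ℕ, ∀ M : ℕ, 1 ≤ M → ∀ (h d s : ℕ) (m : Fin h → ℕ)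
    (J : Fin s ↪ Fin h), s ≤ n + 1 → (∀ i, (∀ l, J l ≠ i) → m i ≤ M) → K * M ^ E ≤ d →
    (n = 2 → ∀ l, m (J l) + K * M ^ E ≤ d) → (∀ i j, i ≠ j → m i + m j ≤ d + 1) →
    ForGeneralPoints n h fun p => ImposesMaximalConditions n d p m := by
  classical
  obtain ⟨K, E, hK⟩ := Pool.Agent.H18.Tk.final_K n hn
  refine ⟨2 * K + n + 1, E, fun M hM h d s m J hs hM' hd h2 hp => ?_⟩
  have hpow : 1 ≤ M ^ E := Nat.one_le_pow _ _ hM
  have hd' : 2 * (K * M ^ E) + n + 1 ≤ d := by
    refine le_trans ?_ hd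
    nlinarith
  by_cases hbig : ∃ i, d < m i
  · obtain ⟨i, hi⟩ := hbig
    refine (ForGeneralPoints.coord_ne_zero n h).mono fun p _ => ?_
    unfold ImposesMaximalConditions
    rw [Pool.Agent.H21.HD.MainX.big_mult p m i hi, Nat.cast_zero, max_eq_left]
    have h3 : (m i + n - 1).choose n ≤ ∑ i, (m i + n - 1).choose n :=
      single_le_sum (f := fun i => (m i + n - 1).choose n) (fun _ _ => Nat.zero_le _) (mem_univ i)
    have h4 : (d + n).choose n ≤ (m i + n - 1).choose n := Nat.choose_le_choose _ (by omega)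
    have h5 : (((d + n).choose n : ℕ) : ℤ) ≤ ((∑ i, (m i + n - 1).choose n : ℕ) : ℤ) := by
      exact_mod_cast h4.trans h3
    push_cast at h5 ⊢
    linarith
  · push Not at hbig
    have hsum : ∑ l, m (J l) + K * M ^ E ≤ n * d := by
      have hnd : 2 * d ≤ n * d := Nat.mul_le_mul_right _ hn
      match s, J, hs with
      | 0, J, _ =>
        rw [univ_eq_empty, sum_empty]
        omega
      | 1, J, _ =>
        rw [Fin.sum_univ_one]
        have := hbig (J 0)
        omega
      | s + 2, J, hs =>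
        have h3 := two_mul_sum_le (fun l => m (J l)) (c := d + 1) fun i j hij =>
          hp _ _ fun h => hij (J.injective h)
        have h4 : (s + 2) * (d + 1) ≤ (n + 1) * (d + 1) := Nat.mul_le_mul_right _ hs
        have h5 : 2 * ∑ l, m (J l) ≤ (n + 1) * (d + 1) := h3.trans h4
        obtain ⟨u, rfl⟩ : ∃ u, n = u + 2 := ⟨n - 2, by omega⟩
        have h6 : (u + 2 + 1) * (d + 1) + 2 * (K * M ^ E) ≤ 2 * ((u + 2) * d) := by
          nlinarith
        omega
    have hcard : (univ.filter fun l => d < m (J l) + K * M ^ E).card + 2 ≤ n := by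
      by_cases hn2 : n = 2
      · have h3 : (univ.filter fun l => d < m (J l) + K * M ^ E) = ∅ := by
          rw [filter_eq_empty_iff]
          intro l _ h4
          have h5 := h2 hn2 l
          have h6 : K * M ^ E ≤ (2 * K + n + 1) * M ^ E := Nat.mul_le_mul_right _ (by omega)
          omega
        rw [h3, card_empty, hn2]
      · have h3 : (univ.filter fun l => d < m (J l) + K * M ^ E).card ≤ 1 := by
          rw [card_le_one]
          intro a ha b hb
          rw [mem_filter] at ha hb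
          by_contra hab
          have h4 := hp _ _ fun h => hab (J.injective h)
          have := ha.2
          have := hb.2
          omega
        omega
    have hmain := hK M hM h d d s m m J (Cremona.refl d m) hs hM' (fun l => hbig _)
      (by omega) hsum hcard
    have hcnt := cntQ (r := n) (d' := d) hs m J (e := Function.Embedding.ofIsEmpty (α := Fin 0)) hbig
      fun i j hij _ _ => hp i j hij
    refine hmain.mono fun p hp' => ?_
    by_contra hcon
    have h3 := (hp'.2.1 hcon).2
    rw [hcnt, cnt_free] at h3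
    have h4 : ∑ i ∈ univ.filter (fun i => (∀ l : Fin 0,
        J ((Function.Embedding.ofIsEmpty (α := Fin 0)) l) ≠ i) ∧ 1 ≤ m i),
        (cnt n 0 (fun l => d - m (J ((Function.Embedding.ofIsEmpty (α := Fin 0)) l)))
          (m i - 1) : ℤ) = ∑ i, ((m i + n - 1).choose n : ℤ) := by
      rw [sum_filter]
      refine sum_congr rfl fun i _ => ?_
      by_cases hi : 1 ≤ m i
      · rw [if_pos ⟨fun l => l.elim0, hi⟩, cnt_free]
        congr 2
        omega
      · rw [if_neg fun h => hi h.2]
        have : m i = 0 := by omega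
        rw [this, Nat.choose_eq_zero_of_lt (by omega), Nat.cast_zero]
    rw [h4] at h3
    exact lt_irrefl _ h3

theorem few (n : ℕ) (hn : 2 ≤ n) : ∃ K E : ℕ, ∀ M : ℕ, 1 ≤ M → ∀ (h d : ℕ) (m : Fin h → ℕ)
    (J : Finset (Fin h)), J.card ≤ n + 1 → (∀ i, i ∉ J → m i ≤ M) → K * M ^ E ≤ d →
    (n = 2 → ∀ i ∈ J, m i + K * M ^ E ≤ d) → (∀ i j, i ≠ j → m i + m j ≤ d + 1) →
    ForGeneralPoints n h fun p => ImposesMaximalConditions n d p m := by
  obtain ⟨K, E, hK⟩ := few_emb n hn
  refine ⟨K, E, fun M hM h d m J hJ hM' hd h2 hp => ?_⟩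
  refine hK M hM h d J.card m (J.orderEmbOfFin rfl).toEmbedding hJ (fun i hi => hM' i fun hiJ => ?_)
    hd (fun hn2 l => h2 hn2 _ (J.orderEmbOfFin_mem rfl l)) hp
  have h3 : i ∈ Set.range (J.orderEmbOfFin rfl) := by
    rw [Finset.range_orderEmbOfFin]
    exact hiJ
  obtain ⟨l, hl⟩ := h3
  exact hi l hl

end Pool.Agent.H18.Iso
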