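import Pool.Agent.H18.Ex.Sing
import Pool.Agent.H21.HD.Main

/-!
# Isolated singularities at general base points bound the pair sums of the multiplicities
-/

namespace Pool.Agent.H18.Iso

open MvPolynomial Pool.Agent.H18.Fat

/-- `q` is an isolated point of, or not contained in, the singular locus of `F = 0`: there is a
form `g` which does not vanish at `q` such that `q` is the only possible singular point of
`F = 0` (common zero of the first derivatives) at which `g` does not vanish. -/
def IsolatedAt {n : ℕ} (F : MvPolynomial (Fin (n + 1)) ℂ) (q : Fin (n + 1) → ℂ) : Prop :=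
  ∃ (e : ℕ) (g : MvPolynomial (Fin (n + 1)) ℂ), g.IsHomogeneous e ∧ MvPolynomial.eval q g ≠ 0 ∧
    ∀ x : Fin (n + 1) → ℂ, (∀ j, MvPolynomial.eval x (MvPolynomial.pderiv j F) = 0) →
      MvPolynomial.eval x g ≠ 0 → ∃ t : ℂ, x = t • q

/-- If `F` is singular along the line through `q` and `v` then `q` is not isolated, for
independent `q`, `v`. -/
theorem not_isolated_of_line {s : ℕ} {F : MvPolynomial (Fin (s + 1 + 1)) ℂ}
    {q v : Fin (s + 1 + 1) → ℂ} (hdet : q 0 * v 1 - q 1 * v 0 ≠ 0)
    (hline : ∀ j t, eval (fun i => q i + t * v i) (pderiv j F) = 0) : ¬ IsolatedAt F q := by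
  rintro ⟨e', g, -, hg0, hg⟩
  -- a parameter different from zero at which `g` does not vanish
  obtain ⟨t, ht0, htg⟩ : ∃ t : ℂ, t ≠ 0 ∧ eval (fun i => q i + t * v i) g ≠ 0 := by
    by_contra hcon
    push Not at hcon
    have h3 : Polynomial.X * Pool.Agent.H18.Ex.line q v g = 0 := by
      apply Polynomial.funext
      intro t
      rw [Polynomial.eval_mul, Polynomial.eval_X, Polynomial.eval_zero,
        Pool.Agent.H18.Ex.eval_line]
      by_cases ht : t = 0
      · rw [ht, zero_mul]
      · rw [hcon t ht, mul_zero]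
    rw [mul_eq_zero] at h3
    rcases h3 with h3 | h3
    · exact Polynomial.X_ne_zero h3
    · apply hg0
      have h4 := Pool.Agent.H18.Ex.eval_line q v g 0
      rw [h3, Polynomial.eval_zero] at h4
      rw [h4]
      congr 2
      funext i
      rw [zero_mul, add_zero]
  obtain ⟨c, hc⟩ := hg _ (fun j => hline j t) htg
  have c0 := congrFun hc 0
  have c1 := congrFun hc 1
  simp only [Pi.smul_apply, smul_eq_mul] at c0 c1
  apply hdet
  have e1 : t * (q 0 * v 1 - q 1 * v 0) = 0 := by
    linear_combination (q 0) * c1 - (q 1) * c0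
  rcases mul_eq_zero.1 e1 with h3 | h3
  · exact absurd h3 ht0
  · exact h3

/-- If for general points some member has isolated singularities at all the points, then
`m_i + m_j ≤ d + 1` for all `i ≠ j`. -/
theorem pair_le {n h d : ℕ} (hn : 1 ≤ n) (m : Fin h → ℕ)
    (hiso : ForGeneralPoints n h fun p => ∃ F ∈ fatForms n d p m, ∀ i, IsolatedAt F (p i))
    (i j : Fin h) (hij : i ≠ j) : m i + m j ≤ d + 1 := by
  classical
  obtain ⟨s, rfl⟩ : ∃ s, n = s + 1 := ⟨n - 1, by omega⟩
  by_contra hcon
  have hab : d + 2 ≤ m i + m j := by omega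
  -- general points are pairwise distinct in projective space
  have hind : ForGeneralPoints (s + 1) h fun p =>
      p i 0 * p j 1 - p i 1 * p j 0 ≠ 0 := by
    refine ⟨X (i, 0) * X (j, 1) - X (i, 1) * X (j, 0), ?_, ?_⟩
    · intro h0
      have h3 := congrArg (eval fun x : Fin h × Fin (s + 1 + 1) =>
        if x = (i, 0) then (1 : ℂ) else if x = (j, 1) then 1 else 0) h0
      simp only [map_sub, map_mul, eval_X, map_zero] at h3
      have e1 : ((i, (1 : Fin (s + 1 + 1))) : Fin h × Fin (s + 1 + 1)) ≠ (i, 0) := by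
        intro h4
        have := congrArg (fun x => x.2) h4
        simp at this
      have e2 : ((i, (1 : Fin (s + 1 + 1))) : Fin h × Fin (s + 1 + 1)) ≠ (j, 1) := by
        intro h4
        exact hij (congrArg (fun x => x.1) h4)
      have e3 : ((j, (1 : Fin (s + 1 + 1))) : Fin h × Fin (s + 1 + 1)) ≠ (i, 0) := by
        intro h4
        exact hij (congrArg (fun x => x.1) h4).symm
      rw [if_neg e1, if_neg e2, if_neg e3, if_pos trivial, if_pos trivial] at h3
      norm_num at h3
    · intro p hp
      simpa using hp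
  obtain ⟨G, hG0, hG⟩ := hiso.and hind
  obtain ⟨x, hx⟩ : ∃ x : Fin h × Fin (s + 1 + 1) → ℂ, eval x G ≠ 0 := by
    by_contra hcon
    push Not at hcon
    exact hG0 (MvPolynomial.funext fun x => by rw [hcon x, map_zero])
  obtain ⟨⟨F, hF, hisoF⟩, hdet⟩ := hG (fun i j => x (i, j)) hx
  set p : Fin h → Fin (s + 1 + 1) → ℂ := fun i j => x (i, j) with hp
  refine not_isolated_of_line hdet ?_ (hisoF i)
  by_cases hbig : ∃ l, d < m l
  · obtain ⟨l, hl⟩ := hbig
    have h0 := Pool.Agent.H21.HD.MainX.big_mult (d := d) p m l hl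
    have hfin : Module.Finite ℂ (fatForms (s + 1) d p m) := inferInstance
    have hF0 : F = 0 := by
      have h1 : (⟨F, hF⟩ : fatForms (s + 1) d p m) = 0 := by
        have := Module.finrank_zero_iff.1 h0
        exact Subsingleton.elim _ _
      exact congrArg Subtype.val h1
    intro j' t
    rw [hF0, map_zero, map_zero]
  · push Not at hbig
    exact fun j' t => Pool.Agent.H18.Ex.singular_line hF.1 (hF.2 i) (hF.2 j) (hbig i) (hbig j)
      hab j' t

end Pool.Agent.H18.Iso
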